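import Mathlib

/-!
Definitions for the project KK (MP_d47e08_pr): the spectral threshold of the Kikuchi matrix.
-/

set_option autoImplicit false
open MeasureTheory ProbabilityTheory Filter Topology

namespace KK14

noncomputable section

/-- the `l`-element subsets of `{0, …, n-1}` -/
abbrev Sub (n l : ℕ) := {I : Finset (Fin n) // I.card = l}

/-- the law of independent standard Gaussians `Z_S`, one for each `r`-subset `S` -/
def gau (n r : ℕ) : Measure (Sub n r → ℝ) := Measure.pi fun _ => gaussianReal 0 1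

/-- the Kikuchi matrix `M(lam)`, of size `n choose l` -/
def kik (n r l : ℕ) (lam : ℝ) (Z : Sub n r → ℝ) : Matrix (Sub n l) (Sub n l) ℝ :=
  fun I J => if h : (symmDiff I.1 J.1).card = r then lam + Z ⟨symmDiff I.1 J.1, h⟩ else 0

/-- the largest eigenvalue of a real symmetric matrix (maximum of the Rayleigh quotient) -/
def lmax {ι : Type*} [Fintype ι] (A : Matrix ι ι ℝ) : ℝ :=
  ⨆ v : {v : ι → ℝ // ∑ i, v i ^ 2 = 1}, ∑ i, ∑ j, v.1 i * A i j * v.1 j

/-- `E lambda_max M(lam)` -/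
def Elm (n r l : ℕ) (lam : ℝ) : ℝ := ∫ Z, lmax (kik n r l lam Z) ∂(gau n r)

/-- `rho_{r,l}(mu)`, the lower limit of `E lambda_max M(mu n^(-r/4)) / E lambda_max M(0)` -/
def rho (r l : ℕ) (mu : ℝ) : EReal :=
  liminf (fun n : ℕ =>
    ((Elm n r l (mu * (n : ℝ) ^ (-(r : ℝ) / 4)) / Elm n r l 0 : ℝ) : EReal)) atTop

/-- the rescaled spectral threshold, `inf {mu ≥ 0 : rho_{r,l}(mu) > 1}` (`⊤` if there is none) -/
def muN (r l : ℕ) : EReal :=
  sInf ((fun mu : ℝ => (mu : EReal)) '' {mu : ℝ | 0 ≤ mu ∧ 1 < rho r l mu})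

/-- Hermite polynomials -/
def He : ℕ → ℝ → ℝ
  | 0, _ => 1
  | 1, x => x
  | (k + 2), x => x * He (k + 1) x - (k + 1) * He k x

/-- weighted paths: `w k I J O` is the expectation of `(M(0)^k)_{I,J} ∏ He_{O S}(Z_S)` -/
def w (n r l : ℕ) : ℕ → Sub n l → Sub n l → (Sub n r → ℕ) → ℝ
  | 0, I, J, O => if I = J ∧ O = 0 then 1 else 0
  | (k + 1), I, J, O => ∑ K : Sub n l,
      if h : (symmDiff I.1 K.1).card = r then
        w n r l k K J (O + Pi.single ⟨symmDiff I.1 K.1, h⟩ 1) +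
          (O ⟨symmDiff I.1 K.1, h⟩ : ℝ) *
            w n r l k K J (O - Pi.single ⟨symmDiff I.1 K.1, h⟩ 1)
      else 0

/-- number of open sets containing `x` -/
def occ {n r : ℕ} (O : Sub n r → ℕ) (x : Fin n) : ℕ := ∑ S : Sub n r, if x ∈ S.1 then O S else 0

/-- the invariants of the exploration -/
structure Inv {n r : ℕ} (I : Finset (Fin n)) (O : Sub n r → ℕ) (V : Finset (Fin n))
    (b : Fin n → ℕ) : Prop where
  sub : I ⊆ V
  out : ∀ x, x ∉ V → occ O x = 0
  pres : ∀ x ∈ I, occ O x ≤ 2 * b x + 1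
  abse : ∀ x, x ∉ I → occ O x ≤ 2 * b x + 2

/-- weight of an opening step -/
def PP (n q l : ℕ) : ℝ := (l.choose q : ℝ) * ((n : ℝ) ^ q / q.factorial)

/-- error factor -/
def TH (n q l K : ℕ) : ℝ := (1 + Real.exp (2 * K / l) * (l + q * K) / n) ^ q

/-- product of signs over a set -/
def xS {n r : ℕ} (x : Fin n → Bool) (S : Sub n r) : ℝ := ∏ i ∈ S.1, (if x i then (1 : ℝ) else -1)

/-- the likelihood ratio, averaged over the spike -/
def LR (n : ℕ) (lam : ℝ) (Z : Sub n 2 → ℝ) : ℝ :=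
  (1 / 2 ^ n) * ∑ x : Fin n → Bool,
    Real.exp (∑ S : Sub n 2, (lam * xS x S) * Z S - ∑ S : Sub n 2, (lam * xS x S) ^ 2 / 2)

end

end KK14
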